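import Pool.Agent.Helper21.AW.All
import Pool.Agent.Helper21.AW.Cg
import Pool.Agent.Helper21.AW.T_LPHI

/-!
# Spins of the `2k`-arm operators of critical bond percolation on `Z^2`

Critical bond percolation on the square lattice `Z^2` modulo the translation by `(n+1, n+1)`: the
bi-infinite cylinder of circumference `N = 2n+2` times half a diagonal of the unit square (sites
`(j,t)`, `j` modulo `N`, primal for `j+t` even and dual for `j+t` odd; the plaquettes of the row `t`
are in the state `true` with probability `p t`; `p t = 1/2` is the isotropic critical point). Cut the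
cylinder at the level `0` along the slit `(0,0), …, (k,0)` (for `k = 1` the slit is one medial edge
and nothing is cut, for `k = 2` it is one vertex).

* `Arms k ω`: `2k` alternating arms start at the slit. Around the slit there are `2k` sectors (the
  ends of the slit and the two sides of its interior points); they are not connected with each other,
  and each of them is connected, in the universal cover, with a sector of another translate of the
  slit. For `k = 1`: the interface through the medial edge `v(0,0)` winds around the cylinder.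
* `Spiral k ω j`: in addition, the sectors, numbered counterclockwise through all turns around the
  slit, which lead to the translate of the slit on the right are `j, …, j+k`. So `j - k/2` is the
  number of steps of `2π/(2k)` by which the arms wind around the slit, clockwise; their winding
  angle, clockwise, is `θ = (π/k)(j - k/2)`.

The theorem: the exponents of the Fourier transform of the winding angle, that is of the `2k`-arm
operators with a phase. For `|φ| < π`

  `E [e^{iφ(j-k/2)} ; 2k arms]` is real, positive and of order `N^{-(4k²-1)/12 - 3φ²/(4π²)}`,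

uniformly in the biases. With `l = 2k` arms and the spin `s = kφ/π`, `|s| < k`, it is
`E [e^{isθ} ; l arms]` and the exponent is `x_{l,s} = (l²-1)/12 + 3s²/l²`: the Coulomb gas formula
`e²/(2g) + g m²/2 - (1-g)²/(2g)`, `g = 2/3`, for the electric charge `e = φ/π` in `(-1,1)` and the
magnetic charge `m = k`.
-/

namespace Pool.Agent.Results.MP_6c8efb_pr.ConformalSpins

open MeasureTheory ProbabilityTheory Filter Topology Pool.Agent.Helper21.EV
  Pool.Agent.Helper21.AW

theorem result :
    ∀ (k : ℕ) (φ : ℝ), 1 ≤ k → |φ| < Real.pi → ∃ c C : ℝ, 0 < c ∧ 0 < C ∧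
      ∀ (n : ℕ) (p : ℤ → unitInterval) (ε : ℝ), k ≤ n + 1 → 0 < ε →
      (∀ t, ε ≤ (p t : ℝ) ∧ (p t : ℝ) ≤ 1 - ε) → ∃ r : ℝ,
      ∑ j ∈ Finset.Icc ((k : ℤ) - n - 1) (n + 1),
        ((coins (2 * n + 1) p).real {ω | Spiral k ω j} : ℂ) *
          Complex.exp (φ * (j - k / 2) * Complex.I) = (r : ℂ) ∧
      c * (2 * (n : ℝ) + 2) ^ (-((4 * (k : ℝ) ^ 2 - 1) / 12) - 3 * φ ^ 2 / (4 * Real.pi ^ 2)) ≤ r ∧
      r ≤ C * (2 * (n : ℝ) + 2) ^
        (-((4 * (k : ℝ) ^ 2 - 1) / 12) - 3 * φ ^ 2 / (4 * Real.pi ^ 2)) := by
  intro k φ hk hφ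
  obtain ⟨c, C, h1, h2, h3⟩ := cgm t_LPHI k hk (abs_nonneg φ) hφ
  refine ⟨c, C, h1, h2, fun n p ε hn h0 hp => ?_⟩
  have hk2 : k ≤ 2 * n + 2 := by omega
  obtain ⟨h4, h5⟩ := four t_L4 hk2 (fun j => (coins (2 * n + 1) p).real {ω | Spiral k ω j})
    (a_law hk hk2 p ε ⟨h0, hp⟩).2 (abs_nonneg φ) hφ
  obtain ⟨h6, h7⟩ := h3 n hn
  rw [sq_abs] at h6 h7
  refine ⟨_, ?_, h6, h7⟩
  rcases le_total 0 φ with h | h
  · rw [abs_of_nonneg h] at h4 ⊢
    exact h4
  · rw [abs_of_nonpos h] at h5 ⊢
    rw [← h5]
    refine Finset.sum_congr rfl fun j _ => ?_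
    congr 2
    push_cast
    ring

end Pool.Agent.Results.MP_6c8efb_pr.ConformalSpins
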