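import Pool.Agent.Helper21.CD.Fin

/-!
# The mean number of interfaces on a cylinder, for all anisotropies

Let `N = 2M`, `M = n+1`. Take critical bond percolation on the square lattice `ℤ²` modulo the
translation by `(M,M)`, that is, on the bi-infinite cylinder whose circumference is `N` times half a
diagonal of the unit square, with independent edges; an edge between the levels `t` and `t+1` is open
with probability `p t` in one of the two lattice directions and with probability `1 - p t` in the
other one, where the `p t` stay away from `0` and `1` (the isotropic critical point is `p t = 1/2`).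

(1) The expected number of the interfaces (closed loops of the medial lattice, contractible or
winding around the cylinder) whose highest level is `t` is `2 ∑ k, Q M k * (p t * (1 - p t)) ^ k`,
where `Q M k = P M k (2M² + 3k³ - k) / (2k(k+1)(2k-1))` and
`P M k = 3 M k C(2k,k) (M+k-1)! (2M-k-1)! / ((M-k)! (2M+k)!)`, whatever the other biases are. Half of
it is the expected number of the open clusters whose highest level is `t`, and the other half is the
expected number of the dual open clusters whose highest level is `t`.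

(2) Let every row `s` have an arbitrary angle `θ s` in the isoradial embedding. The expected number of
the interfaces whose highest level is `t` is

  `N κ(p t * (1 - p t)) + (5√3/12) sin (θ t) / N`

up to an error of at most `20 / N³`, where `κ(u) = (1-s)(1+2s)/(2(1+s))`, `s = √(1-u)`; the level
`t+1` is at the height `sin (θ t)` above the level `t`. The first term is not universal (for
`u = 1/4` it gives the number `(3√3-5)/2` of Temperley and Lieb). The second one, which is `5√3/12`
times the modulus of the slab between the two levels, is the same for all anisotropies.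
-/

namespace Pool.Agent.Results.MP_6c8efb_pr.InterfaceNumber

open MeasureTheory Pool.Agent.Helper21.EV Pool.Agent.Helper21.CD
open Pool.Agent.Helper21.WC (bias)

theorem result :
    (∀ (n : ℕ) (p : ℤ → unitInterval) (ε : ℝ), 0 < ε →
      (∀ s, ε ≤ (p s : ℝ) ∧ (p s : ℝ) ≤ 1 - ε) →
      ∀ t : ℤ, (∫ ω, (loops ω t : ℝ) ∂(coins (2 * n + 1) p) =
        2 * ∑ k ∈ Finset.range (n + 2), Q (n + 1) k * ((p t : ℝ) * (1 - p t)) ^ k) ∧
        ∀ ρ : ℤ, ∫ ω, (tops ω t ρ : ℝ) ∂(coins (2 * n + 1) p) =
          ∑ k ∈ Finset.range (n + 2), Q (n + 1) k * ((p t : ℝ) * (1 - p t)) ^ k) ∧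
    (∀ (n : ℕ) (θ : ℤ → ℝ) (δ : ℝ), 0 < δ → (∀ s, δ ≤ θ s ∧ θ s ≤ Real.pi - δ) →
      ∀ p : ℤ → unitInterval, (∀ s, (p s : ℝ) = bias (θ s)) →
        ∀ t : ℤ, |∫ ω, (loops ω t : ℝ) ∂(coins (2 * n + 1) p) -
          (2 * (n : ℝ) + 2) * kap ((p t : ℝ) * (1 - p t)) -
          5 * √3 / 12 * Real.sin (θ t) / (2 * (n : ℝ) + 2)| ≤ 20 / (2 * (n : ℝ) + 2) ^ 3) := by
  refine ⟨fun n p ε h0 h1 t => ⟨?_, fun ρ => ?_⟩, fun n θ δ h0 h1 p hp t => ?_⟩
  · exact loops_gM (ε := ε) ⟨h0, h1⟩ t
  · exact tops_gM (ε := ε) ⟨h0, h1⟩ t ρ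
  · rw [loops_gM (Pool.Agent.Helper21.WC.bias_ell h0 h1 hp) t]
    have h2 := gM_angle (n := n) (p := p t) (θ := θ t) (by linarith [(h1 t).1])
      (by linarith [(h1 t).2]) (hp t)
    have e : 2 * gM (n + 1) ((p t : ℝ) * (1 - p t)) -
        (2 * (n : ℝ) + 2) * kap ((p t : ℝ) * (1 - p t)) -
        5 * √3 / 12 * Real.sin (θ t) / (2 * (n : ℝ) + 2) =
        2 * (gM (n + 1) ((p t : ℝ) * (1 - p t)) - ((n : ℝ) + 1) * kap ((p t : ℝ) * (1 - p t)) -
          5 * √3 / 24 * Real.sin (θ t) / (2 * (n : ℝ) + 2)) := by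
      ring
    rw [e, abs_mul, abs_of_pos (show (0 : ℝ) < 2 by norm_num)]
    have e3 : 20 / (2 * (n : ℝ) + 2) ^ 3 = 2 * (10 / (2 * (n : ℝ) + 2) ^ 3) := by ring
    rw [e3]
    exact mul_le_mul_of_nonneg_left h2 (by norm_num)

end Pool.Agent.Results.MP_6c8efb_pr.InterfaceNumber
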