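import Pool.Agent.Helper21.WC.Lim2

/-!
# The boundary of the winding cluster of a half cylinder: exact law and scaling limit

Let `N = 2n+2`. Take critical bond percolation on the square lattice `ℤ²` modulo the translation by
`(n+1,n+1)`, that is, on the bi-infinite cylinder whose circumference is `N` times half a diagonal of
the unit square, with independent edges; an edge between the levels `t` and `t+1` is open with
probability `p t` in one of the two lattice directions and with probability `1 - p t` in the other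
one, where the `p t` stay away from `0` and `1` (the isotropic critical point is `p t = 1/2`). The
sites `(j,t)` are the vertices of the lattice and of its dual.

Let `K` be the number of sites of the level `t` whose cluster in the half cylinder of the levels up
to `t` winds around the cylinder (all these sites lie in one cluster, open or dual open; `K` is the
number of points where the highest interface which goes around this cluster touches the boundary).

(1) `K` has the law `P (n+1) k`, where
`P M k = 3 M k C(2k,k) (M+k-1)! (2M-k-1)! / ((M-k)! (2M+k)!)`, whatever the biases are, and every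
site of the level `t` belongs to this cluster with the probability
`arm n = 1/2 ∏_{i<n} (3i+4)/(3i+5)`.

(2) `K³ / N²` converges in law to `Z² / 2` with a standard normal variable `Z`, for arbitrary
sequences of biases and levels.

(3) `N^(1/3) arm n` converges to `2^(1/3) Γ(2/3) / Γ(1/3)`.
-/

namespace Pool.Agent.Results.MP_6c8efb_pr.WindingContacts

open MeasureTheory ProbabilityTheory Filter Topology Pool.Agent.Helper21.EV Pool.Agent.Helper21.WC

theorem result :
    (∀ (n : ℕ) (p : ℤ → unitInterval) (ε : ℝ), 0 < ε →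
      (∀ s, ε ≤ (p s : ℝ) ∧ (p s : ℝ) ≤ 1 - ε) → ∀ t : ℤ,
      (∀ k : ℕ, (coins (2 * n + 1) p).real {ω | contacts ω t = k} = P (n + 1) k) ∧
      ∀ j : ℤ, (coins (2 * n + 1) p).real
        {ω | Relation.EqvGen (LinkTo ω t) (j, t) (j + (2 * n + 2), t)} = arm n) ∧
    (∀ (p : ℕ → ℤ → unitInterval) (ε : ℕ → ℝ), (∀ n, 0 < ε n) →
      (∀ n s, ε n ≤ (p n s : ℝ) ∧ (p n s : ℝ) ≤ 1 - ε n) → ∀ (t : ℕ → ℤ) (x : ℝ), 0 ≤ x →
      Tendsto (fun n : ℕ => (coins (2 * n + 1) (p n)).real
          {ω | (contacts ω (t n) : ℝ) ≤ x * (2 * (n : ℝ) + 2) ^ (2 / 3 : ℝ)}) atTop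
        (𝓝 ((gaussianReal 0 1).real (Set.Icc (-√(2 * x ^ 3)) √(2 * x ^ 3))))) ∧
    Tendsto (fun n : ℕ => (2 * (n : ℝ) + 2) ^ (1 / 3 : ℝ) * arm n) atTop
      (𝓝 (2 ^ (1 / 3 : ℝ) * (Real.Gamma (2 / 3) / Real.Gamma (1 / 3)))) ∧
    (∀ (n : ℕ) (ω : Fin (2 * n + 1 + 1) × ℤ → Bool) (t a b : ℤ),
      Relation.EqvGen (LinkTo ω t) (a, t) (a + (2 * n + 2), t) →
      Relation.EqvGen (LinkTo ω t) (b, t) (b + (2 * n + 2), t) →
      Relation.EqvGen (LinkTo ω t) (a, t) (b, t)) := by
  have hc : ∀ (n : ℕ) (j : ℤ), j + (((2 * n + 1 : ℕ) : ℤ) + 1) = j + (2 * n + 2) := by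
    intro n j
    push_cast
    ring
  refine ⟨fun n p ε h0 h1 t => ⟨fun k => contacts_law ⟨h0, h1⟩ t k, fun j => ?_⟩,
    fun p ε h0 h1 t x hx => contacts_lim p (fun n => ⟨ε n, h0 n, h1 n⟩) t hx, arm_lim,
    fun n ω t a b ha hb => ?_⟩
  · have h := Hw_prob (n := n) (p := p) ⟨h0, h1⟩ t j
    unfold Hw at h
    simp only [hc] at h
    exact h
  · apply linkTo_unique
    · rw [hc]
      exact ha
    · rw [hc]
      exact hb

end Pool.Agent.Results.MP_6c8efb_pr.WindingContacts
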