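import Pool.Agent.Helper38.EW.E2

/-!
# Contacts of the flat end of a half-infinite strip of even width with its two sides

Critical bond percolation on `ℤ²`, in the half-infinite strip `0 ≤ u - v ≤ 2n`, `u + v ≤ 0` (rotated by
45 degrees).  Its flat end `u + v = 0` has `n - 1` vertices which are not on the two sides.  Let `N` be the
number of those which are joined to one of the two sides by an open path in the strip.  Then

  `P(N = k) = w(k+1) / (w(1) + ... + w(n))`,
  `w(k) = k ∏_{i=1}^{k-1} 2(2n+2i+1)(n-i) / ((2n-i-1)(2n+i+2))`,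

and `N / (2n)^{2/3}` converges in law and with all moments to the density `(3/Γ(2/3)) x exp(-x³)`.
-/

namespace Pool.Agent.Results.MP_6c8efb_pr.WiredStripContacts

open MeasureTheory Filter Topology Pool.Agent.Helper38.EW
open Pool.Agent.H988R2.Perc (perc)

theorem result :
    (∀ n : ℕ, ∀ k < n, perc.real {ω | (touchE (2 * n) ω).ncard = k} =
      ws n (k + 1) / ∑ j ∈ Finset.range n, ws n (j + 1)) ∧
    (∀ t : ℝ, 0 ≤ t → Tendsto (fun n : ℕ => perc.real {ω | (((touchE (2 * n) ω).ncard : ℕ) : ℝ) ≤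
        t * (2 * (n : ℝ)) ^ ((2 : ℝ) / 3)}) atTop
      (𝓝 (3 / Real.Gamma (2 / 3) * ∫ x in (0 : ℝ)..t, x * Real.exp (-x ^ 3)))) ∧
    (∀ m : ℕ, Tendsto (fun n : ℕ => ∫ ω,
        (((touchE (2 * n) ω).ncard : ℝ) / (2 * (n : ℝ)) ^ ((2 : ℝ) / 3)) ^ m ∂perc) atTop
      (𝓝 (Real.Gamma (((m : ℝ) + 2) / 3) / Real.Gamma (2 / 3)))) := by
  refine ⟨fun n k hk => ?_, fun t ht => limit_lawE t ht, fun m => momentsE m⟩
  rw [exact_lawE (by omega) k (by omega)]
  congr 1
  unfold wt
  rw [Finset.sum_range_succ', ws_zero, add_zero]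

end Pool.Agent.Results.MP_6c8efb_pr.WiredStripContacts
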